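import Pool.Agent.H743.X17.IsoStm

/-!
# The two components of a real cubic have the same period
-/

set_option autoImplicit false

open MeasureTheory Set

namespace Pool.Agent.H328.I17

theorem egg (a b c : ℝ) (hab : a < b) (hbc : b < c) :
  ∫ x in Set.Ioo a b, 1 / Real.sqrt ((x - a) * (x - b) * (x - c)) =
    ∫ x in Set.Ioi c, 1 / Real.sqrt ((x - a) * (x - b) * (x - c)) := by
  set k : ℝ := (b - a) * (c - a) with hk
  have hk0 : 0 < k := mul_pos (by linarith) (by linarith)
  set f : ℝ → ℝ := fun x => a + k / (x - a) with hf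
  set f' : ℝ → ℝ := fun x => -k / (x - a) ^ 2 with hf'
  have hxa : ∀ x ∈ Set.Ioi c, 0 < x - a := fun x hx => by
    have : c < x := hx
    linarith
  have himg : f '' Set.Ioi c = Set.Ioo a b := by
    ext y
    constructor
    · rintro ⟨x, hx, rfl⟩
      have h1 := hxa x hx
      have h2 : c < x := hx
      refine ⟨?_, ?_⟩
      · show a < a + k / (x - a)
        have : 0 < k / (x - a) := div_pos hk0 h1
        linarith
      · show a + k / (x - a) < b
        have : k / (x - a) < b - a := by
          rw [div_lt_iff₀ h1, hk]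
          exact mul_lt_mul_of_pos_left (by linarith) (by linarith)
        linarith
    · rintro ⟨h1, h2⟩
      have hya : 0 < y - a := by linarith
      refine ⟨a + k / (y - a), ?_, ?_⟩
      · show c < a + k / (y - a)
        have : c - a < k / (y - a) := by
          rw [lt_div_iff₀ hya, hk, mul_comm]
          exact mul_lt_mul_of_pos_right (by linarith) (by linarith)
        linarith
      · show a + k / (a + k / (y - a) - a) = y
        have h3 : a + k / (y - a) - a = k / (y - a) := by ring
        rw [h3, div_div_cancel₀ hk0.ne']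
        ring
  have hinj : Set.InjOn f (Set.Ioi c) := by
    intro x hx y hy h
    have h1 : k / (x - a) = k / (y - a) := by
      have : a + k / (x - a) = a + k / (y - a) := h
      linarith
    have h2 := hxa x hx
    have h3 := hxa y hy
    rw [div_eq_div_iff h2.ne' h3.ne'] at h1
    have := mul_left_cancel₀ hk0.ne' h1
    linarith
  have hder : ∀ x ∈ Set.Ioi c, HasDerivWithinAt f (f' x) (Set.Ioi c) x := by
    intro x hx
    have h2 := hxa x hx
    have h3 : HasDerivAt (fun x : ℝ => x - a) 1 x := (hasDerivAt_id x).sub_const a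
    have h4 : HasDerivAt (fun y : ℝ => k / (y - a)) ((0 * (x - a) - k * 1) / (x - a) ^ 2) x :=
      (hasDerivAt_const x k).div h3 h2.ne'
    have h5 : HasDerivAt f ((0 * (x - a) - k * 1) / (x - a) ^ 2) x := h4.const_add a
    have h6 : (0 * (x - a) - k * 1) / (x - a) ^ 2 = f' x := by
      show (0 * (x - a) - k * 1) / (x - a) ^ 2 = -k / (x - a) ^ 2
      ring
    rw [← h6]
    exact h5.hasDerivWithinAt
  rw [← himg, integral_image_eq_integral_abs_deriv_smul measurableSet_Ioi hder hinj]
  refine setIntegral_congr_fun measurableSet_Ioi fun x hx => ?_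
  have h1 := hxa x hx
  have h2 : c < x := hx
  have h3 : 0 < x - b := by linarith
  have h4 : 0 < x - c := by linarith
  show |(-k / (x - a) ^ 2)| • (1 / Real.sqrt ((a + k / (x - a) - a) * (a + k / (x - a) - b) *
    (a + k / (x - a) - c))) = 1 / Real.sqrt ((x - a) * (x - b) * (x - c))
  have h5 : (a + k / (x - a) - a) * (a + k / (x - a) - b) * (a + k / (x - a) - c) =
      (k / (x - a) ^ 2) ^ 2 * ((x - a) * (x - b) * (x - c)) := by
    rw [hk]
    field_simp
    ring
  have h6 : 0 < k / (x - a) ^ 2 := by positivity
  have h7 : 0 < (x - a) * (x - b) * (x - c) := by positivity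
  rw [h5, Real.sqrt_mul (by positivity), Real.sqrt_sq h6.le, smul_eq_mul, neg_div, abs_neg,
    abs_of_pos h6]
  have h8 := Real.sqrt_pos.2 h7
  field_simp

theorem t_EGG : Pool.Agent.H743.X17.S_EGG := fun a b c hab hbc => egg a b c hab hbc

end Pool.Agent.H328.I17
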